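import Mathlib

set_option autoImplicit false

namespace Pool.Agent.Results.MP_3119c3_an.Counter

open MeasureTheory Complex Matrix AddCircle
open scoped ComplexConjugate

abbrev Circ := AddCircle (1 : ℝ)

noncomputable abbrev mu : Measure Circ := haarAddCircle

noncomputable def blaschke {n : ℕ} (c : ℂ) (a : Fin n → ℂ) (z : ℂ) : ℂ :=
  c * ∏ i, (z - a i) / (1 - conj (a i) * z)

def hardy : Set (Lp ℂ 2 mu) := {f | ∀ k : ℤ, k < 0 → fourierCoeff f k = 0}

def model (Θ : ℂ → ℂ) : Set (Lp ℂ 2 mu) :=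
  {f | f ∈ hardy ∧ ∀ g ∈ hardy, ∫ t, Θ (toCircle t) * g t * conj (f t) ∂mu = 0}

def IsMatrixOf {n : ℕ} (M : Matrix (Fin n) (Fin n) ℂ) (φ : Circ → ℂ) (e : Fin n → Circ → ℂ) :
    Prop := ∀ i j, M i j = ∫ t, φ t * e j t * conj (e i t) ∂mu

def UETTO {n : ℕ} (M : Matrix (Fin n) (Fin n) ℂ) : Prop :=
  ∃ (c : ℂ) (a : Fin n → ℂ) (φ : Lp ℂ ⊤ mu) (e : Fin n → Lp ℂ 2 mu),
    ‖c‖ = 1 ∧ (∀ i, ‖a i‖ < 1) ∧ Orthonormal ℂ e ∧
    (Submodule.span ℂ (Set.range e) : Set (Lp ℂ 2 mu)) = model (blaschke c a) ∧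
    IsMatrixOf M φ fun j => e j

noncomputable def kern (Θ : ℂ → ℂ) (α ζ : ℂ) (t : Circ) : ℂ :=
  (1 - conj α * Θ (toCircle t)) / (1 - conj ζ * toCircle t)

def ClarkMatrix {n : ℕ} (M : Matrix (Fin n) (Fin n) ℂ) : Prop :=
  ∃ (c : ℂ) (a : Fin n → ℂ) (φ : Lp ℂ ⊤ mu) (α : ℂ) (ζ w : Fin n → ℂ),
    ‖c‖ = 1 ∧ (∀ i, ‖a i‖ < 1) ∧ ‖α‖ = 1 ∧ Function.Injective ζ ∧ (∀ j, ‖ζ j‖ = 1) ∧
    (∀ j, blaschke c a (ζ j) = α) ∧ (∀ j, w j ^ 2 = α * conj (ζ j)) ∧
    IsMatrixOf M φ fun j t => w j * kern (blaschke c a) α (ζ j) t /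
      (Real.sqrt (∫ s, ‖kern (blaschke c a) α (ζ j) s‖ ^ 2 ∂mu) : ℂ)

theorem kern_bdd {n : ℕ} (c : ℂ) (a : Fin n → ℂ) (ha : ∀ i, ‖a i‖ < 1) (α : ℂ) (hα : ‖α‖ = 1) :
    ∃ K : ℝ, ∀ ζ : ℂ, ‖ζ‖ = 1 → blaschke c a ζ = α → ∀ t,
      ‖kern (blaschke c a) α ζ t‖ ≤ K ∧ ‖1 - conj α * blaschke c a (toCircle t)‖ ≤ 2 * K := by
  have h1 : ContDiffOn ℂ 1 (blaschke c a) (Metric.closedBall 0 1) := by
    unfold blaschke
    refine contDiffOn_const.mul (contDiffOn_prod fun i _ => ContDiffOn.div (by fun_prop)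
      (by fun_prop) fun z hz h => ?_)
    have h2 := congrArg norm (sub_eq_zero.1 h)
    rw [norm_one, norm_mul, Complex.norm_conj] at h2
    have h3 : ‖z‖ ≤ 1 := by simpa using hz
    nlinarith [ha i, norm_nonneg (a i), norm_nonneg z]
  obtain ⟨K, hK⟩ := (h1.restrict_scalars ℝ).exists_lipschitzOnWith one_ne_zero
    (convex_closedBall _ _) (isCompact_closedBall _ _)
  refine ⟨K, fun ζ hζ hΘ t => ?_⟩
  have hz : ‖(toCircle t : ℂ)‖ = 1 := Circle.norm_coe _
  have h2 := hK.norm_sub_le (x := ζ) (y := toCircle t) (by simp [hζ]) (by simp)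
  have h3 : ∀ u v : ℂ, ‖u‖ = 1 → ‖1 - conj u * v‖ = ‖u - v‖ := by
    intro u v hu
    have : 1 - conj u * v = conj u * (u - v) := by
      rw [mul_sub, Complex.conj_mul', hu]
      simp
    rw [this, norm_mul, Complex.norm_conj, hu, one_mul]
  rw [hΘ] at h2
  have hK0 : (0 : ℝ) ≤ K := K.2
  constructor
  · rw [kern, norm_div, h3 _ _ hα, h3 _ _ hζ]
    exact div_le_of_le_mul₀ (norm_nonneg _) hK0 h2
  · rw [h3 _ _ hα]
    have := norm_sub_le ζ (toCircle t : ℂ)
    rw [hζ, hz] at this
    nlinarith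

theorem kern_id (Θ : ℂ → ℂ) (α x y : ℂ) (hα : ‖α‖ = 1) (hx : ‖x‖ = 1) (hy : ‖y‖ = 1)
    (h1 : Θ x = α) (h2 : Θ y = α) (t : Circ) :
    (1 - conj y * x) * (kern Θ α y t * conj (kern Θ α x t)) =
      conj (1 - conj α * Θ (toCircle t)) * (kern Θ α y t - kern Θ α x t) := by
  have hz : ‖(toCircle t : ℂ)‖ = 1 := Circle.norm_coe _
  have u : ∀ u : ℂ, ‖u‖ = 1 → conj u * u = 1 := by
    intro u hu
    rw [Complex.conj_mul', hu]
    simp
  unfold kern
  generalize (toCircle t : ℂ) = z at *
  by_cases hN : 1 - conj α * Θ z = 0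
  · simp [hN]
  have d : ∀ v : ℂ, ‖v‖ = 1 → Θ v = α → 1 - conj v * z ≠ 0 := by
    intro v hv hv' h
    have : z = v := by linear_combination (-v) * h - z * u v hv
    rw [this, hv', u α hα] at hN
    simp at hN
  have dx := d x hx h1
  have dy := d y hy h2
  have dx' : 1 - x * conj z ≠ 0 := by
    intro h
    apply dx
    have := congrArg conj h
    simpa using this
  rw [map_div₀]
  generalize conj (1 - conj α * Θ z) = N' at *
  generalize 1 - conj α * Θ z = N at *
  simp only [map_sub, map_one, map_mul, Complex.conj_conj]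
  have ux := u x hx
  have uz := u z hz
  field_simp
  grind

theorem not_clark : ¬ ClarkMatrix !![0, 0, 1; 0, 0, I; 1, I, 0] := by
  rintro ⟨c, a, φ, α, ζ, w, -, ha, hα, hi, hζ, hΘ, hw, hM⟩
  obtain ⟨K, hK⟩ := kern_bdd c a ha α hα
  have hc : Measurable fun t : Circ => (toCircle t : ℂ) :=
    (continuous_subtype_val.comp continuous_toCircle).measurable
  have hm : Measurable fun t : Circ => 1 - conj α * blaschke c a (toCircle t) := by
    unfold blaschke
    fun_prop
  have hk : ∀ j, Measurable (kern (blaschke c a) α (ζ j)) := fun j => hm.div (by fun_prop)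
  have hφ : Integrable φ mu := (Lp.memLp φ).integrable le_top
  have hint : ∀ j, Integrable (fun t => φ t * (conj (1 - conj α * blaschke c a (toCircle t)) *
      kern (blaschke c a) α (ζ j) t)) mu := by
    intro j
    refine hφ.mul_bdd (c := 2 * K * K) ((Complex.continuous_conj.measurable.comp hm).mul
      (hk j)).aestronglyMeasurable (Filter.Eventually.of_forall fun t => ?_)
    have := hK _ (hζ j) (hΘ j) t
    rw [norm_mul, Complex.norm_conj]
    exact mul_le_mul this.2 this.1 (norm_nonneg _) ((norm_nonneg _).trans this.2)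
  set m : Fin 3 → ℂ := fun j => ∫ t, φ t * (conj (1 - conj α * blaschke c a (toCircle t)) *
      kern (blaschke c a) α (ζ j) t) ∂mu with hmdef
  set r : Fin 3 → ℝ := fun j =>
    (Real.sqrt (∫ s, ‖kern (blaschke c a) α (ζ j) s‖ ^ 2 ∂mu))⁻¹ with hr
  have key : ∀ i j, (1 - conj (ζ j) * ζ i) * !![0, 0, 1; 0, 0, I; 1, I, 0] i j =
      w j * conj (w i) * r i * r j * (m j - m i) := by
    intro i j
    rw [hM i j, hmdef, ← integral_sub (hint j) (hint i), ← integral_const_mul, ← integral_const_mul]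
    refine integral_congr_ae (Filter.Eventually.of_forall fun t => ?_)
    have := kern_id (blaschke c a) α (ζ i) (ζ j) hα (hζ i) (hζ j) (hΘ i) (hΘ j) t
    simp only [hr, map_mul, Complex.conj_ofReal, Complex.ofReal_inv, div_eq_mul_inv,
      map_inv₀] at this ⊢
    linear_combination (φ t * w j * conj (w i) *
      (Real.sqrt (∫ s, ‖kern (blaschke c a) α (ζ i) s‖ ^ 2 ∂mu) : ℂ)⁻¹ *
      (Real.sqrt (∫ s, ‖kern (blaschke c a) α (ζ j) s‖ ^ 2 ∂mu) : ℂ)⁻¹) * this
  have u : ∀ u : ℂ, ‖u‖ = 1 → conj u * u = 1 := by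
    intro u hu
    rw [Complex.conj_mul', hu]
    simp
  have hw1 : ∀ j, conj (w j) * w j = 1 := by
    intro j
    apply u
    have := congrArg norm (hw j)
    rw [norm_pow, norm_mul, Complex.norm_conj, hα, hζ, mul_one] at this
    exact (pow_eq_one_iff_of_nonneg (norm_nonneg _) two_ne_zero).1 this
  have hq : ∀ i j, conj (ζ j) * ζ i = (w j * conj (w i)) ^ 2 := by
    intro i j
    have h1 : conj (w i) ^ 2 = conj α * ζ i := by simpa using congrArg conj (hw i)
    rw [mul_pow, hw, h1]
    linear_combination (-(conj (ζ j) * ζ i)) * u α hα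
  have hne : ∀ i j, i ≠ j → (1 : ℂ) - conj (ζ j) * ζ i ≠ 0 := by
    intro i j hij h
    apply hij
    apply hi
    linear_combination (-ζ j) * h - ζ i * u _ (hζ j)
  have k01 := key 0 1
  have k02 := key 0 2
  have k12 := key 1 2
  have n02 := hne 0 2 (by decide)
  have n12 := hne 1 2 (by decide)
  simp only [of_apply, cons_val', cons_val, cons_val_fin_one, mul_zero, mul_one] at k01 k02 k12
  have r0 : (r 0 : ℂ) ≠ 0 := by
    intro h
    rw [h] at k02
    exact n02 (by simpa using k02)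
  have r1 : (r 1 : ℂ) ≠ 0 := by
    intro h
    rw [h] at k12
    exact n12 (by simpa using k12)
  have w0 : ∀ j, w j ≠ 0 := fun j h => by simpa [h] using hw1 j
  have m01 : m 1 = m 0 := by
    have := k01.symm
    simpa [r0, r1, w0, sub_eq_zero] using this
  rw [m01, hq] at k12
  rw [hq] at k02 n02
  have p0 := hw1 0
  have p1 := hw1 1
  have p2 := hw1 2
  have s0 : conj (w 2) * w 0 - w 2 * conj (w 0) = r 0 * (r 2 * (m 2 - m 0)) := by grind
  have s1 : (conj (w 2) * w 1 - w 2 * conj (w 1)) * I = r 1 * (r 2 * (m 2 - m 0)) := by grind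
  have s2 : (conj (w 2) * w 0 - w 2 * conj (w 0)) * r 1 =
      (conj (w 2) * w 1 - w 2 * conj (w 1)) * I * r 0 := by rw [s0, s1]; ring
  have s3 := congrArg conj s2
  simp only [map_mul, map_sub, Complex.conj_conj, Complex.conj_ofReal, Complex.conj_I] at s3
  have s4 : (conj (w 2) * w 0 - w 2 * conj (w 0)) * r 1 = 0 := by
    linear_combination (1 / 2 : ℂ) * s2 - (1 / 2 : ℂ) * s3
  have s5 := (mul_eq_zero.1 s4).resolve_right r1
  apply n02
  grind

theorem tc (t : Circ) (k : ℕ) : (toCircle t : ℂ) ^ k = fourier k t := by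
  induction k with
  | zero => simp
  | succ k ih => rw [pow_succ, ih, ← fourier_one, Nat.cast_succ, fourier_add]

theorem model_cube (f : Lp ℂ 2 mu) : f ∈ model (blaschke 1 (0 : Fin 3 → ℂ)) ↔
    ∀ k : ℤ, k ∉ ({0, 1, 2} : Finset ℤ) → fourierCoeff f k = 0 := by
  have hb : ∀ t : Circ, blaschke 1 (0 : Fin 3 → ℂ) (toCircle t) = fourier 3 t := by
    intro t
    simp [blaschke, tc t 3]
  simp only [model, hardy, Set.mem_ofPred_eq, hb]
  constructor
  · rintro ⟨h1, h2⟩ k hk
    by_cases hk' : k < 0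
    · exact h1 k hk'
    have h3 := h2 (fourierLp 2 (k - 3)) (fun l hl => by
      rw [fourierCoeff_congr_ae (coeFn_fourierLp 2 (k - 3)), fourierCoeff_fourier,
        Pi.single_eq_of_ne]
      simp at hk
      omega)
    have h4 : conj (fourierCoeff f k) = 0 := by
      rw [← h3, fourierCoeff, ← integral_conj]
      refine integral_congr_ae ?_
      filter_upwards [coeFn_fourierLp (T := 1) 2 (k - 3)] with t ht
      rw [ht, ← fourier_add, smul_eq_mul, map_mul, fourier_neg, Complex.conj_conj]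
      simp
    simpa using h4
  · intro h
    refine ⟨fun k hk => h k (by simp; omega), fun g hg => ?_⟩
    have h1 : f = ∑ k ∈ ({0, 1, 2} : Finset ℤ), fourierCoeff f k • fourierLp 2 k :=
      (hasSum_fourier_series_L2 f).unique (hasSum_sum_of_ne_finset_zero fun k hk => by
        rw [h k hk, zero_smul])
    have h2 : ∀ᵐ t ∂mu, f t = ∑ k ∈ ({0, 1, 2} : Finset ℤ), fourierCoeff f k * fourier k t := by
      generalize fourierCoeff f = x at h1
      rw [h1]
      filter_upwards [Lp.coeFn_finsetSum ({0, 1, 2} : Finset ℤ)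
          (fun k => x k • fourierLp (T := 1) 2 k),
        ae_all_iff.2 fun k => Lp.coeFn_smul (x k) (fourierLp (T := 1) 2 k),
        ae_all_iff.2 fun k => coeFn_fourierLp (T := 1) 2 k] with t a1 a2 a3
      rw [a1, Finset.sum_apply]
      exact Finset.sum_congr rfl fun k _ => by rw [a2, Pi.smul_apply, a3, smul_eq_mul]
    have hg' : Integrable g mu := (Lp.memLp g).integrable one_le_two
    have h3 : ∫ t, fourier 3 t * g t * conj (f t) ∂mu = ∫ t, ∑ k ∈ ({0, 1, 2} : Finset ℤ),
        conj (fourierCoeff f k) * (fourier (-(k - 3)) t • g t) ∂mu := by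
      refine integral_congr_ae ?_
      filter_upwards [h2] with t ht
      rw [ht, map_sum, Finset.mul_sum]
      refine Finset.sum_congr rfl fun k _ => ?_
      rw [neg_sub, sub_eq_add_neg, fourier_add, fourier_neg, map_mul, smul_eq_mul]
      ring
    rw [h3, integral_finsetSum _ fun k _ => (hg'.fourier_smul _).const_mul _]
    refine Finset.sum_eq_zero fun k hk => ?_
    rw [integral_const_mul]
    have := hg (k - 3) (by simp at hk; omega)
    rw [fourierCoeff] at this
    rw [this, mul_zero]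

theorem uetto : UETTO !![0, 0, 1; 0, 0, I; 1, I, 0] := by
  obtain ⟨s, hs, hs'⟩ : ∃ s : ℂ, conj s = s ∧ 2 * s ^ 2 = 1 := by
    refine ⟨((Real.sqrt 2)⁻¹ : ℝ), Complex.conj_ofReal _, ?_⟩
    norm_cast
    rw [inv_pow, Real.sq_sqrt zero_le_two]
    norm_num
  let U : Fin 3 → ℤ → ℂ := ![fun k => if k = 1 then 0 else s,
    fun k => if k = 0 then I * s else if k = 1 then 0 else -(I * s), fun k => if k = 1 then 1 else 0]
  let e : Fin 3 → Lp ℂ 2 mu := fun j => ∑ k ∈ ({0, 1, 2} : Finset ℤ), U j k • fourierLp 2 k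
  have hon := orthonormal_iff_ite.1 (orthonormal_fourier (T := 1))
  have hI := Complex.I_mul_I
  refine ⟨1, 0, (2 * s) • fourierLp ⊤ 1, e, by simp, by simp, ?_, ?_, ?_⟩
  · rw [orthonormal_iff_ite]
    intro i j
    simp only [e, sum_inner, inner_sum, inner_smul_left, inner_smul_right, hon]
    fin_cases i <;> fin_cases j <;> simp [U, hs] <;> grind
  · ext f
    rw [model_cube, SetLike.mem_coe]
    constructor
    · intro hf k hk
      rw [← fourierBasis_repr]
      induction hf using Submodule.span_induction with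
      | mem x hx =>
        obtain ⟨j, rfl⟩ := hx
        simp only [e, map_sum, map_smul, lp.coeFn_sum, Finset.sum_apply, lp.coeFn_smul,
          Pi.smul_apply]
        refine Finset.sum_eq_zero fun l hl => ?_
        rw [fourierBasis_repr, fourierCoeff_congr_ae (coeFn_fourierLp 2 l), fourierCoeff_fourier,
          Pi.single_eq_of_ne, smul_zero]
        rintro rfl
        exact hk hl
      | zero => simp
      | add x y _ _ hx hy => rw [map_add, lp.coeFn_add, Pi.add_apply, hx, hy, add_zero]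
      | smul c x _ hx => rw [map_smul, lp.coeFn_smul, Pi.smul_apply, hx, smul_zero]
    · intro h
      have h1 : f = ∑ k ∈ ({0, 1, 2} : Finset ℤ), fourierCoeff f k • fourierLp 2 k :=
        (hasSum_fourier_series_L2 f).unique (hasSum_sum_of_ne_finset_zero fun k hk => by
          rw [h k hk, zero_smul])
      generalize fourierCoeff f = x at h1
      rw [Submodule.mem_span_range_iff_exists_fun]
      refine ⟨![s * (x 0 + x 2), -(I * s) * (x 0 - x 2), x 1], ?_⟩
      rw [h1]
      simp [Fin.sum_univ_three, e, U]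
      match_scalars <;> grind
  · intro i j
    have h2 : ∀ j, ∀ᵐ t ∂mu, e j t = ∑ k ∈ ({0, 1, 2} : Finset ℤ), U j k * fourier k t := by
      intro j
      filter_upwards [Lp.coeFn_finsetSum ({0, 1, 2} : Finset ℤ)
          (fun k => U j k • fourierLp (T := 1) 2 k),
        ae_all_iff.2 fun k => Lp.coeFn_smul (U j k) (fourierLp (T := 1) 2 k),
        ae_all_iff.2 fun k => coeFn_fourierLp (T := 1) 2 k] with t a1 a2 a3
      rw [a1, Finset.sum_apply]
      exact Finset.sum_congr rfl fun k _ => by rw [a2, Pi.smul_apply, a3, smul_eq_mul]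
    have h3 : ∫ t, ((2 * s) • fourierLp (T := 1) ⊤ 1) t * e j t * conj (e i t) ∂mu =
        ∫ t, ∑ k ∈ ({0, 1, 2} : Finset ℤ), ∑ l ∈ ({0, 1, 2} : Finset ℤ),
          (2 * s * U j k * conj (U i l)) * (fourier (-l) t • fourier (1 + k) t) ∂mu := by
      refine integral_congr_ae ?_
      filter_upwards [h2 i, h2 j, Lp.coeFn_smul (2 * s) (fourierLp (T := 1) ⊤ 1),
        coeFn_fourierLp (T := 1) ⊤ 1] with t a1 a2 a3 a4
      rw [a1, a2, a3, Pi.smul_apply, a4, map_sum, mul_assoc, Finset.sum_mul_sum, Finset.mul_sum]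
      refine Finset.sum_congr rfl fun k _ => ?_
      rw [Finset.mul_sum]
      refine Finset.sum_congr rfl fun l _ => ?_
      rw [fourier_add, fourier_neg, map_mul, smul_eq_mul, smul_eq_mul]
      ring
    have h4 : ∀ (x : ℂ) (k l : ℤ), Integrable
        (fun t : Circ => x * (fourier (-l) t • fourier (1 + k) t)) mu := fun x k l =>
      (Integrable.fourier_smul ((fourier (1 + k)).continuous.integrable_of_hasCompactSupport
        (HasCompactSupport.of_compactSpace _)) _).const_mul _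
    have h5 : ∀ k l : ℤ, ∫ t, fourier (-l) t • fourier (1 + k) t ∂mu =
        if l = 1 + k then 1 else 0 := by
      intro k l
      have := congrFun (fourierCoeff_fourier (T := 1) (1 + k)) l
      rw [Pi.single_apply] at this
      exact this
    rw [h3, integral_finsetSum _ fun k _ => integrable_finsetSum _ fun l _ => h4 _ k l]
    simp only [integral_finsetSum _ fun l _ => h4 _ _ l, integral_const_mul, h5]
    fin_cases i <;> fin_cases j <;> simp [U, hs] <;> grind

theorem result : ∃ M : Matrix (Fin 3) (Fin 3) ℂ, Mᵀ = M ∧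
    (∀ P : Matrix (Fin 3) (Fin 3) ℂ, P * P = P → Pᴴ = P → P * M = M * P → P = 0 ∨ P = 1) ∧
    UETTO M ∧ ¬ ClarkMatrix M := by
  refine ⟨_, ?_, ?_, uetto, not_clark⟩
  · ext i j
    fin_cases i <;> fin_cases j <;> rfl
  · intro P h1 h2 h3
    have a := fun i j => congrFun (congrFun h3 i) j
    have b := fun i j => congrFun (congrFun h2 i) j
    have hI := Complex.I_mul_I
    have a00 := a 0 0
    have a01 := a 0 1
    have a02 := a 0 2
    have a10 := a 1 0
    have a12 := a 1 2
    have a20 := a 2 0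
    have a21 := a 2 1
    simp [Matrix.mul_apply, Fin.sum_univ_three] at a00 a01 a02 a10 a12 a20 a21
    have b00 := b 0 0
    have b01 := b 0 1
    have b02 := b 0 2
    have b11 := b 1 1
    have b12 := b 1 2
    have b22 := b 2 2
    simp only [conjTranspose_apply, RCLike.star_def] at b00 b01 b02 b11 b12 b22
    have c01 := congrArg conj a01
    have c02 := congrArg conj a02
    have c20 := congrArg conj a20
    have b10 := congrArg conj b01
    have b21 := congrArg conj b12
    simp only [map_mul, map_add, Complex.conj_I, Complex.conj_conj] at c01 c02 c20 b10 b21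
    have e : P = P 2 2 • (1 : Matrix (Fin 3) (Fin 3) ℂ) := by
      ext i j
      fin_cases i <;> fin_cases j <;> simp <;> grind
    have d : P 2 2 * P 2 2 = P 2 2 := by
      have := congrFun (congrFun h1 2) 2
      rw [e] at this
      simpa using this
    rcases mul_eq_zero.1 (show P 2 2 * (P 2 2 - 1) = 0 by linear_combination d) with h | h
    · left
      rw [e, h, zero_smul]
    · right
      rw [e, sub_eq_zero.1 h, one_smul]

end Pool.Agent.Results.MP_3119c3_an.Counter
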